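import Pool.Agent.H94.G4T.M21
import Pool.Agent.H94.G4T.M61
import Pool.Agent.H94.G4T.M91

/-!
# G4 A CmB: basic properties of the combinations

`Cmb.pts`: the points `nv v (f i n x')` for `x'` near `x` off `D`.  `Cmb.linv`: `lin` for functions with values in `EN N`.  `Cmb.prm`: the combination of the integrals from a local section is, up to a small error, the
derivative of a local primitive at `v` in the direction of `cX`.
-/

set_option autoImplicit false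

open Topology Filter Metric

namespace Pool.Agent.G4.A

open Pool.Agent.H36.BP (EN fs wd)
open Pool.Agent.H14.PP (IsCone CurveAt Tan)
open Pool.Agent.H62.EF (MN pr)
open Pool.Agent.AD (Vd Chart Charts IsGerm)
open Pool.Agent.TG
open Pool.Agent.G3
open Pool.Agent.G3.A
open Pool.Agent.G3.R (Prm jj_prm nv_near inner_near)
open Pool.Agent.G3.C (Gc nv nd nv_pr)

variable {N k : ℕ} {X : Set (EN N)} {Λ : AddSubgroup (Vd (k + 1))} {u : EN N → Vd (k + 1)} {D B Bad : Set (Vd (k + 1))} {a : Vd (k + 1)}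

variable {ι : Type*} {𝒰 : Ultrafilter ι} {M : ℕ} {y : Fin M → ι → Vd (k + 1)} {y₀ : Vd (k + 1)} {f : Fin M → ι → ℂ → MN N} {g : ℂ → MN N} {c : ι → Fin M → ℂ → ℂ}

theorem Cmb.pts (hC : Cmb X Λ u D a 𝒰 y y₀ f g c) (hX : IsCone X) (hu : TMap X Λ u) (hD : IsClosed D) {x : ℂ} (hx : y₀ + x • a ∉ D) {v : EN N} (hv : ‖v‖ = 1) (hvg : pr v = g x)
    {r : ℝ} (hr : 0 < r) : ∃ t : ℝ, 0 < t ∧ ∀ᶠ n in (𝒰 : Filter ι), ∀ x' ∈ ball x t, ∀ i, nv v (f i n x') ∈ X ∧ nv v (f i n x') ∈ ball v r ∧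
      u (nv v (f i n x')) - (y i n + x' • a) ∈ Λ ∧ inner ℂ v (nv v (f i n x')) = (1 : ℂ) ∧ y i n + x' • a ∈ ball (y₀ + x • a) r ∧ dist (f i n x') (pr v) < r := by
  obtain ⟨ε₁, hε₁, h1⟩ := nv_near (N := N) hr
  obtain ⟨ε₂, hε₂, h2⟩ := inner_near (N := N) (η := 1 / 2) (by norm_num)
  have hgc := hc_cont hX hC.g_mem
  obtain ⟨ε₃, hε₃, hε1, hε2, hε4⟩ : ∃ ε₃ : ℝ, 0 < ε₃ ∧ ε₃ ≤ ε₁ ∧ ε₃ ≤ ε₂ ∧ ε₃ ≤ r := ⟨min r (min ε₁ ε₂), by positivity, (min_le_right _ _).trans (min_le_left _ _),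
    (min_le_right _ _).trans (min_le_right _ _), min_le_left _ _⟩
  have e1 : ∀ᶠ x' in 𝓝 x, dist (g x') (g x) < ε₃ / 2 := Metric.tendsto_nhds.1 (hgc.tendsto x) _ (by linarith)
  have hcont : Continuous fun x' : ℂ => y₀ + x' • a := by fun_prop
  have e2 : ∀ᶠ x' in 𝓝 x, y₀ + x' • a ∉ D := hcont.continuousAt.eventually (hD.isOpen_compl.mem_nhds hx)
  have e3 : ∀ᶠ x' in 𝓝 x, dist (y₀ + x' • a) (y₀ + x • a) < r / 2 := Metric.tendsto_nhds.1 (hcont.tendsto x) _ (by linarith)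
  obtain ⟨t, ht, h3⟩ := Metric.eventually_nhds_iff_ball.1 (e1.and (e2.and e3))
  have hun : ∀ᶠ n in (𝒰 : Filter ι), ∀ i, ∀ x' ∈ closedBall x (t / 2), dist (f i n x') (g x') ≤ ε₃ / 4 :=
    Filter.eventually_all.2 fun i => (hC.lm i).unif4 hgc (isCompact_closedBall _ _) (fun x' hx' => (h3 x' (closedBall_subset_ball (by linarith) hx')).2.1) (by linarith)
  have hyn : ∀ᶠ n in (𝒰 : Filter ι), ∀ i, dist (y i n) y₀ < r / 2 := Filter.eventually_all.2 fun i => Metric.tendsto_nhds.1 (hC.y_lim i) _ (by linarith)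
  have hfn : ∀ᶠ n in (𝒰 : Filter ι), ∀ i, f i n ∈ Hc X Λ u a (y i n) := Filter.eventually_all.2 hC.f_mem
  refine ⟨t / 2, by linarith, ?_⟩
  filter_upwards [hun, hyn, hfn] with n a1 a2 a3 x' hx' i
  have hxt : x' ∈ ball x t := ball_subset_ball (by linarith) hx'
  obtain ⟨b1, b2, b3⟩ := h3 x' hxt
  have hd : dist (f i n x') (pr v) < ε₃ := by
    rw [hvg]
    refine (dist_triangle _ (g x') _).trans_lt ?_
    have := a1 i x' (ball_subset_closedBall hx')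
    linarith
  obtain ⟨p, hp, hpm, hpu⟩ := hc_mem (a3 i) x'
  have hi := (h2 v hv p (ne_zero hX hp) (by rw [hpm]; exact hd.le.trans hε2)).1
  have e : nv v (f i n x') = (inner ℂ v p : ℂ)⁻¹ • p := by rw [← hpm, nv_pr hi]
  refine ⟨?_, ?_, ?_, ?_, ?_, hd.trans_le hε4⟩
  · rw [e]
    exact hX.smul_mem p hp _ (inv_ne_zero hi)
  · rw [mem_ball, dist_eq_norm]
    exact h1 v hv _ (hd.le.trans hε1)
  · rw [e]
    exact smul_mem_lat hu hp hpu (inv_ne_zero hi)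
  · rw [e, inner_smul_right, inv_mul_cancel₀ hi]
  · rw [mem_ball, dist_eq_norm]
    have e5 : y i n + x' • a - (y₀ + x • a) = (y i n - y₀) + (y₀ + x' • a - (y₀ + x • a)) := by abel
    rw [e5]
    refine (norm_add_le _ _).trans_lt ?_
    rw [← dist_eq_norm, ← dist_eq_norm]
    linarith [a2 i]

/-- `lin` for functions with values in `EN N` -/
theorem Cmb.linv (hC : Cmb X Λ u D a 𝒰 y y₀ f g c) {x : ℂ} (hx : y₀ + x • a ∉ D) {v : EN N} (hv : ‖v‖ = 1) (hvg : pr v = g x) {F : EN N × Vd (k + 1) → EN N}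
    (hF : AnalyticAt ℂ F (v, y₀ + x • a)) {ε : ℝ} (hε : 0 < ε) : ∃ t : ℝ, 0 < t ∧ ∀ᶠ n in (𝒰 : Filter ι), ∀ x' ∈ ball x t,
      ‖(∑ i, c n i x' • F (nv v (f i n x'), y i n + x' • a)) - fderiv ℂ F (v, y₀ + x • a) (cX c f v n x', 0)‖ ≤ ε := by
  set ε' : ℝ := ε / (N + 2) with hε'
  have hε'0 : 0 < ε' := by positivity
  have hcoord : ∀ l : Fin (N + 1), ∃ t : ℝ, 0 < t ∧ ∀ᶠ n in (𝒰 : Filter ι), ∀ x' ∈ ball x t,
      ‖((∑ i, c n i x' • F (nv v (f i n x'), y i n + x' • a)) - fderiv ℂ F (v, y₀ + x • a) (cX c f v n x', 0)) l‖ ≤ ε' := by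
    intro l
    have hFl : AnalyticAt ℂ (fun p => (EuclideanSpace.proj l : EN N →L[ℂ] ℂ) (F p)) (v, y₀ + x • a) := (ContinuousLinearMap.analyticAt _ _).fun_comp hF
    obtain ⟨t, ht, h1⟩ := hC.lin x hx v hv hvg _ hFl ε' hε'0
    refine ⟨t, ht, ?_⟩
    filter_upwards [h1] with n h2 x' hx'
    have h3 := h2 x' hx'
    have h4 : fderiv ℂ (fun p => (EuclideanSpace.proj l : EN N →L[ℂ] ℂ) (F p)) (v, y₀ + x • a) = (EuclideanSpace.proj l : EN N →L[ℂ] ℂ).comp (fderiv ℂ F (v, y₀ + x • a)) := by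
      have h5 := (EuclideanSpace.proj l : EN N →L[ℂ] ℂ).hasFDerivAt.comp (v, y₀ + x • a) hF.differentiableAt.hasFDerivAt
      exact h5.fderiv
    rw [h4] at h3
    refine le_of_eq_of_le ?_ h3
    congr 1
    simp [PiLp.sub_apply]
  choose t ht h1 using hcoord
  obtain ⟨t₀, ht₀, htl⟩ : ∃ t₀ : ℝ, 0 < t₀ ∧ ∀ l, t₀ ≤ t l := by
    refine ⟨Finset.univ.inf' Finset.univ_nonempty t, ?_, fun l => Finset.inf'_le _ (Finset.mem_univ l)⟩
    rw [Finset.lt_inf'_iff]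
    exact fun l _ => ht l
  refine ⟨t₀, ht₀, ?_⟩
  filter_upwards [Filter.eventually_all.2 h1] with n h2 x' hx'
  set V := (∑ i, c n i x' • F (nv v (f i n x'), y i n + x' • a)) - fderiv ℂ F (v, y₀ + x • a) (cX c f v n x', 0) with hV
  have h3 : ∀ l, ‖V l‖ ≤ ε' := fun l => h2 l x' (ball_subset_ball (htl l) hx')
  have h4 : ‖V‖ ^ 2 ≤ ε ^ 2 := by
    rw [EuclideanSpace.norm_sq_eq]
    calc ∑ l, ‖V l‖ ^ 2 ≤ ∑ _l : Fin (N + 1), ε' ^ 2 := Finset.sum_le_sum fun l _ => pow_le_pow_left₀ (norm_nonneg _) (h3 l) 2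
      _ = (N + 1) * ε' ^ 2 := by simp
      _ ≤ ε ^ 2 := by
        have h5 : ε = (N + 2) * ε' := by
          rw [hε']
          field_simp
        have hN : (0 : ℝ) ≤ N := Nat.cast_nonneg N
        rw [h5, mul_pow]
        refine mul_le_mul_of_nonneg_right ?_ (sq_nonneg _)
        nlinarith
  exact (pow_le_pow_iff_left₀ (norm_nonneg _) hε.le two_ne_zero).1 h4

/-- functions on `EN N` which are differentiable near a point are analytic there -/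
theorem an_en {Ψ : EN N → ℂ} {v : EN N} (h : ∀ᶠ p in 𝓝 v, DifferentiableAt ℂ Ψ p) : AnalyticAt ℂ Ψ v := by
  set e : EN N ≃L[ℂ] (Fin (N + 1) → ℂ) := EuclideanSpace.equiv (Fin (N + 1)) ℂ with he
  have h0 : ∀ᶠ q in 𝓝 (e v), DifferentiableAt ℂ Ψ (e.symm q) := by
    have h1 : Tendsto e.symm (𝓝 (e v)) (𝓝 v) := by
      have := e.symm.continuous.tendsto (e v)
      rwa [e.symm_apply_apply] at this
    exact h1.eventually h
  have h1 : ∀ᶠ q in 𝓝 (e v), ‖Ψ (e.symm q)‖ < ‖Ψ v‖ + 1 := by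
    have h2 : ContinuousAt (fun q => Ψ (e.symm q)) (e v) := by
      refine ContinuousAt.comp (f := e.symm) ?_ e.symm.continuous.continuousAt
      rw [e.symm_apply_apply]
      exact h.self_of_nhds.continuousAt
    have h3 : ‖Ψ (e.symm (e v))‖ < ‖Ψ v‖ + 1 := by
      rw [e.symm_apply_apply]
      exact lt_add_one _
    exact h2.norm.eventually_lt_const h3
  obtain ⟨r, hr, hb⟩ := Metric.eventually_nhds_iff_ball.1 (h0.and h1)
  have h2 : AnalyticAt ℂ (fun q => Ψ (e.symm q)) (e v) := by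
    refine Pool.Agent.TN.osgood_pi hr (M := ‖Ψ v‖ + 1) (fun y hy => (hb y hy).2.le) fun y hy l => ?_
    have h3 : DifferentiableAt ℂ (fun t : ℂ => e.symm (y + t • (Pi.single l 1 : Fin (N + 1) → ℂ))) 0 :=
      DifferentiableAt.comp (0 : ℂ) (f := fun t : ℂ => y + t • (Pi.single l 1 : Fin (N + 1) → ℂ)) e.symm.differentiableAt (by fun_prop)
    refine DifferentiableAt.comp (0 : ℂ) (f := fun t : ℂ => e.symm (y + t • (Pi.single l 1 : Fin (N + 1) → ℂ))) ?_ h3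
    rw [zero_smul, add_zero]
    exact (hb y hy).1
  have h3 : AnalyticAt ℂ (fun p => Ψ (e.symm (e p))) v := h2.fun_comp ((e : EN N →L[ℂ] (Fin (N + 1) → ℂ)).analyticAt v)
  simpa using h3

theorem prm_an {α : VForm X Λ u} {y₁ : Vd (k + 1)} {v : EN N} {R : ℝ} {Ψ : EN N → ℂ} (hΨ : Prm α y₁ v R Ψ) : AnalyticAt ℂ Ψ v := by
  refine an_en ?_
  filter_upwards [isOpen_ball.mem_nhds (mem_ball_self hΨ.pos)] with p hp
  exact (hΨ.diff p hp).differentiableAt (isOpen_ball.mem_nhds hp)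

/-- the combination of the values of a function of `x`, `fderiv` form -/
theorem Cmb.lin₁ (hC : Cmb X Λ u D a 𝒰 y y₀ f g c) {x : ℂ} (hx : y₀ + x • a ∉ D) {v : EN N} (hv : ‖v‖ = 1) (hvg : pr v = g x) {Ψ : EN N → ℂ}
    (hF : AnalyticAt ℂ Ψ v) {ε : ℝ} (hε : 0 < ε) : ∃ t : ℝ, 0 < t ∧ ∀ᶠ n in (𝒰 : Filter ι), ∀ x' ∈ ball x t,
      ‖(∑ i, c n i x' * Ψ (nv v (f i n x'))) - fderiv ℂ Ψ v (cX c f v n x')‖ ≤ ε := by
  have h1 : AnalyticAt ℂ (fun p : EN N × Vd (k + 1) => Ψ p.1) (v, y₀ + x • a) := AnalyticAt.fun_comp (g := Ψ) (f := fun p : EN N × Vd (k + 1) => p.1) hF analyticAt_fst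
  have h2 : ∀ w : EN N, fderiv ℂ (fun p : EN N × Vd (k + 1) => Ψ p.1) (v, y₀ + x • a) (w, 0) = fderiv ℂ Ψ v w := by
    intro w
    have h3 : HasFDerivAt (fun p : EN N × Vd (k + 1) => Ψ p.1) ((fderiv ℂ Ψ v).comp (ContinuousLinearMap.fst ℂ (EN N) (Vd (k + 1)))) (v, y₀ + x • a) :=
      HasFDerivAt.comp (g := Ψ) (f := fun p : EN N × Vd (k + 1) => p.1) (v, y₀ + x • a) hF.differentiableAt.hasFDerivAt hasFDerivAt_fst
    rw [h3.fderiv]
    rfl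
  obtain ⟨t, ht, h3⟩ := hC.lin x hx v hv hvg _ h1 ε hε
  refine ⟨t, ht, ?_⟩
  filter_upwards [h3] with n hn x' hx'
  have h4 := hn x' hx'
  rwa [h2] at h4

/-- functions of `y` are killed -/
theorem Cmb.kil (hC : Cmb X Λ u D a 𝒰 y y₀ f g c) {x : ℂ} (hx : y₀ + x • a ∉ D) {v : EN N} (hv : ‖v‖ = 1) (hvg : pr v = g x) {h : Vd (k + 1) → ℂ}
    (hF : AnalyticAt ℂ h (y₀ + x • a)) {ε : ℝ} (hε : 0 < ε) : ∃ t : ℝ, 0 < t ∧ ∀ᶠ n in (𝒰 : Filter ι), ∀ x' ∈ ball x t,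
      ‖∑ i, c n i x' * h (y i n + x' • a)‖ ≤ ε := by
  have h1 : AnalyticAt ℂ (fun p : EN N × Vd (k + 1) => h p.2) (v, y₀ + x • a) := AnalyticAt.fun_comp (g := h) (f := fun p : EN N × Vd (k + 1) => p.2) hF analyticAt_snd
  have h2 : ∀ w : EN N, fderiv ℂ (fun p : EN N × Vd (k + 1) => h p.2) (v, y₀ + x • a) (w, 0) = 0 := by
    intro w
    have h3 : HasFDerivAt (fun p : EN N × Vd (k + 1) => h p.2) ((fderiv ℂ h (y₀ + x • a)).comp (ContinuousLinearMap.snd ℂ (EN N) (Vd (k + 1)))) (v, y₀ + x • a) :=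
      HasFDerivAt.comp (g := h) (f := fun p : EN N × Vd (k + 1) => p.2) (v, y₀ + x • a) hF.differentiableAt.hasFDerivAt hasFDerivAt_snd
    rw [h3.fderiv]
    show (fderiv ℂ h (y₀ + x • a)) 0 = 0
    exact map_zero _
  obtain ⟨t, ht, h3⟩ := hC.lin x hx v hv hvg _ h1 ε hε
  refine ⟨t, ht, ?_⟩
  filter_upwards [h3] with n hn x' hx'
  have h4 := hn x' hx'
  rwa [h2, sub_zero] at h4

/-- the combination of the integrals from a local section -/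
theorem Cmb.prm (hC : Cmb X Λ u D a 𝒰 y y₀ f g c) (G : Geo X Λ u D B) {α : VForm X Λ u} {x : ℂ} (hx : y₀ + x • a ∉ D) {S : Vd (k + 1) → EN N}
    (hS : AnalyticAt ℂ S (y₀ + x • a)) (hSX : ∀ᶠ y in 𝓝 (y₀ + x • a), S y ∈ X ∧ u (S y) - y ∈ Λ) (hSg : pr (S (y₀ + x • a)) = g x)
    {Ψ : EN N → ℂ} {v : EN N} {R : ℝ} (hΨ : Prm α (y₀ + x • a) v R Ψ) (hv : pr v = g x) {ε : ℝ} (hε : 0 < ε) :
    ∃ t : ℝ, 0 < t ∧ ∀ᶠ n in (𝒰 : Filter ι), ∀ x' ∈ ball x t,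
      ‖(∑ i, c n i x' * JJ α (y i n + x' • a) (pr (S (y i n + x' • a))) (f i n x')) - fderiv ℂ Ψ v (cX c f v n x')‖ ≤ ε := by
  obtain ⟨han, ε₀, hε₀, hJ⟩ := jj_prm G hΨ hS hSX (hSg.trans hv.symm)
  have hv1 := hΨ.unit
  obtain ⟨t₁, ht₁, h1⟩ := hC.lin₁ hx hv1 hv (prm_an hΨ) (half_pos hε)
  obtain ⟨t₂, ht₂, h2⟩ := hC.kil hx hv1 hv han (half_pos hε)
  obtain ⟨t₃, ht₃, h3⟩ := hC.pts G.cone G.tor G.D_closed hx hv1 hv hε₀
  have hfn : ∀ᶠ n in (𝒰 : Filter ι), ∀ i, f i n ∈ Hc X Λ u a (y i n) := Filter.eventually_all.2 hC.f_mem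
  refine ⟨min t₁ (min t₂ t₃), by positivity, ?_⟩
  filter_upwards [h1, h2, h3, hfn] with n a1 a2 a3 a4 x' hx'
  have b1 := a1 x' (ball_subset_ball (min_le_left _ _) hx')
  have b2 := a2 x' (ball_subset_ball ((min_le_right _ _).trans (min_le_left _ _)) hx')
  have b3 := a3 x' (ball_subset_ball ((min_le_right _ _).trans (min_le_right _ _)) hx')
  have h7 : ∀ i, JJ α (y i n + x' • a) (pr (S (y i n + x' • a))) (f i n x') = Ψ (nv v (f i n x')) - Ψ (nv v (pr (S (y i n + x' • a)))) := fun i =>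
    (hJ _ (b3 i).2.2.2.2.1 _ (hc_mem (a4 i) x') (b3 i).2.2.2.2.2).2
  have h8 : (∑ i, c n i x' * JJ α (y i n + x' • a) (pr (S (y i n + x' • a))) (f i n x')) - fderiv ℂ Ψ v (cX c f v n x') =
      ((∑ i, c n i x' * Ψ (nv v (f i n x'))) - fderiv ℂ Ψ v (cX c f v n x')) - ∑ i, c n i x' * Ψ (nv v (pr (S (y i n + x' • a)))) := by
    rw [sub_right_comm, ← Finset.sum_sub_distrib]
    congr 1
    refine Finset.sum_congr rfl fun i _ => ?_
    rw [h7 i]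
    ring
  rw [h8]
  refine (norm_sub_le _ _).trans ?_
  linarith

end Pool.Agent.G4.A
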