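import Pool.Agent.H94.G4T.M129
import Pool.Agent.H94.G4T.M43

/-!
# G4 A LOC: two curves over the same line which are close on a large disc are equal

`ε₁ ≤ ε₀` of `hp_rigid` for the constants `δ` (the closeness on `Gd D δ` passes to limits at the points over `Gd D (2 δ)`).  If it is false: `f n ≠ g n` close on discs of radius `n` (centre `0` after
recentring).  Let `R n` be the supremum of the radii `R` such that `dist ≤ ε₁` on the part of `ball 0 R` over `Gd D δ`; it is finite (`hp_rigid`).  There is `z n`, `R n ≤ ‖z n‖ ≤ R n + 1 / n`, over `Gd D δ` with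
`dist > ε₁`.  Recentre at `z n`, move by `Λ`, limits `f`, `g` over `y₀` (`hc_closed`), `y₀ ∈ Gd D δ` (closed): `dist (f 0) (g 0) ≥ ε₁`, and `dist (f z) (g z) ≤ ε₁` for `z` in a half plane
`{Re (conj ω z) < 0}`, `y₀ + z a ∈ Co` (`Gd D (2 δ)`, so `y n + z a ∈ Gd D δ` eventually).  `hp_rigid`: `f = g`.  Contradiction.
-/

set_option autoImplicit false

open Topology Filter Metric

namespace Pool.Agent.G4.A

open Pool.Agent.H36.BP (EN fs wd)
open Pool.Agent.H14.PP (IsCone CurveAt Tan)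
open Pool.Agent.H62.EF (MN pr)
open Pool.Agent.AD (Vd Chart Charts IsGerm)
open Pool.Agent.TG
open Pool.Agent.G3
open Pool.Agent.G3.A
open Pool.Agent.G3.C (Gc HP)

variable {N k : ℕ} {X : Set (EN N)} {Λ : AddSubgroup (Vd (k + 1))} {u : EN N → Vd (k + 1)} {D B Bad : Set (Vd (k + 1))} {a : Vd (k + 1)}

variable {Γ : AddSubgroup (Vd (k + 1))} {J rW : ℕ} {W : Fin rW → Vd (k + 1) →L[ℂ] ℂ} {α : Fin J → VForm X Λ u} {c₀ C₀ ρ δ : ℝ}

private theorem loc_nsq (z c : ℂ) : ‖z - c‖ ^ 2 = ‖z‖ ^ 2 - 2 * ((starRingEnd ℂ) c * z).re + ‖c‖ ^ 2 := by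
  rw [Complex.sq_norm, Complex.sq_norm, Complex.sq_norm, Complex.normSq_sub, mul_comm z]
  ring

/-- the limit of discs whose radii go to infinity and whose boundaries come near `0` contains an open half plane with `0` on its boundary -/
private theorem loc_disc {c : ℕ → ℂ} {R e : ℕ → ℝ} {𝒰 : Ultrafilter ℕ} (hR : Tendsto R (𝒰 : Filter ℕ) atTop) (he : Tendsto e (𝒰 : Filter ℕ) (𝓝 0))
    (hc : ∀ n, ‖c n‖ ≤ R n + e n) :
    ∃ ν : ℂ, ‖ν‖ = 1 ∧ ∀ z : ℂ, 0 < ((starRingEnd ℂ) ν * z).im → ∀ᶠ n in (𝒰 : Filter ℕ), z ∈ ball (c n) (R n) := by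
  classical
  obtain ⟨v, hv⟩ : ∃ v : ℕ → ℂ, v = fun n => if c n = 0 then 1 else (‖c n‖ : ℂ)⁻¹ * c n := ⟨_, rfl⟩
  have hv1 : ∀ n, ‖v n‖ = 1 := by
    intro n
    rw [hv]
    by_cases h : c n = 0
    · simp [h]
    · simp only [h, if_false]
      rw [norm_mul, norm_inv, Complex.norm_real, norm_norm, inv_mul_cancel₀ (norm_ne_zero_iff.2 h)]
  have hcv : ∀ n, c n = (‖c n‖ : ℂ) * v n := by
    intro n
    rw [hv]
    by_cases h : c n = 0
    · simp [h]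
    · simp only [h, if_false]
      have h1 : (‖c n‖ : ℂ) ≠ 0 := by exact_mod_cast norm_ne_zero_iff.2 h
      rw [← mul_assoc, mul_inv_cancel₀ h1, one_mul]
  obtain ⟨w, hw, hwt⟩ := (isCompact_sphere (0 : ℂ) 1).ultrafilter_le_nhds (𝒰.map v) (by
    rw [Ultrafilter.coe_map, le_principal_iff, mem_map]
    refine univ_mem' fun n => ?_
    simpa using hv1 n)
  have hwt' : Tendsto v (𝒰 : Filter ℕ) (𝓝 w) := hwt
  have hw1 : ‖w‖ = 1 := by simpa using hw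
  refine ⟨-Complex.I * w, by rw [norm_mul, norm_neg, Complex.norm_I, hw1, one_mul], fun z hd => ?_⟩
  obtain ⟨η, hη⟩ : ∃ η : ℝ, η = ((starRingEnd ℂ) w * z).re := ⟨_, rfl⟩
  have hη0 : 0 < η := by
    have e : ((starRingEnd ℂ) (-Complex.I * w) * z).im = ((starRingEnd ℂ) w * z).re := by
      rw [map_mul, map_neg, Complex.conj_I, neg_neg, mul_assoc, Complex.I_mul_im]
    rw [hη, ← e]
    exact hd
  have hre : Tendsto (fun n => ((starRingEnd ℂ) (v n) * z).re) (𝒰 : Filter ℕ) (𝓝 η) := by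
    have h1 : Continuous fun x : ℂ => ((starRingEnd ℂ) x * z).re := by fun_prop
    rw [hη]
    exact (h1.tendsto w).comp hwt'
  have e1 : ∀ᶠ n in (𝒰 : Filter ℕ), η / 2 < ((starRingEnd ℂ) (v n) * z).re := hre.eventually_const_lt (by linarith)
  have e2 : ∀ᶠ n in (𝒰 : Filter ℕ), e n < η / 4 := he.eventually_lt_const (by linarith)
  have e3 : ∀ᶠ n in (𝒰 : Filter ℕ), ‖z‖ + 2 * ‖z‖ ^ 2 / η + η < R n := hR.eventually_gt_atTop _
  filter_upwards [e1, e2, e3] with n h1 h2 h3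
  rw [mem_ball, dist_eq_norm]
  have hs0 : 0 ≤ ‖c n‖ := norm_nonneg _
  have hz0 : 0 ≤ ‖z‖ := norm_nonneg _
  have hq0 : 0 ≤ 2 * ‖z‖ ^ 2 / η := by positivity
  have hRc := hc n
  rcases lt_or_ge (‖z‖ + ‖c n‖) (R n) with hs | hs
  · exact (norm_sub_le z (c n)).trans_lt hs
  · have h4 : ((starRingEnd ℂ) (c n) * z).re = ‖c n‖ * ((starRingEnd ℂ) (v n) * z).re := by
      conv_lhs => rw [hcv n]
      rw [map_mul, Complex.conj_ofReal, mul_assoc, Complex.re_ofReal_mul]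
    have h5 := loc_nsq z (c n)
    rw [h4] at h5
    have h6 : 2 * ‖z‖ ^ 2 / η < ‖c n‖ := by linarith
    have h7 : 2 * ‖z‖ ^ 2 < ‖c n‖ * η := by
      rwa [div_lt_iff₀ hη0] at h6
    have h8 : ‖c n‖ * (η / 2) ≤ ‖c n‖ * ((starRingEnd ℂ) (v n) * z).re := mul_le_mul_of_nonneg_left h1.le hs0
    have h9 : ‖c n‖ - η / 4 ≤ R n := by linarith
    have h10 : 0 ≤ ‖c n‖ - η / 4 := by linarith
    have h11 : (‖c n‖ - η / 4) ^ 2 ≤ R n ^ 2 := by gcongr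
    have h12 : ‖z - c n‖ ^ 2 < R n ^ 2 := by nlinarith [sq_nonneg (η / 4)]
    exact lt_of_pow_lt_pow_left₀ 2 (by linarith) h12

/-- the contradiction after recentering at a point near the boundary of the maximal disc -/
theorem loc_core (S : DA X Λ u D B Bad a Γ W α c₀ C₀ ρ δ) {ε₁ : ℝ} (hε : 0 < ε₁)
    (hrig : ∀ y : Vd (k + 1), ∀ f ∈ Hc X Λ u a y, ∀ g ∈ Hc X Λ u a y, ∀ (ω : ℂ) (h : ℝ), ‖ω‖ = 1 →
      (∀ z ∈ HP ω h, y + z • a ∈ Co D Bad δ ρ → dist (f z) (g z) ≤ ε₁) → f = g)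
    {y : ℕ → Vd (k + 1)} {f g : ℕ → ℂ → MN N} {c : ℕ → ℂ} {R e : ℕ → ℝ} {Q : ℝ}
    (hy : ∀ n, ‖y n‖ ≤ Q) (hf : ∀ n, f n ∈ Hc X Λ u a (y n)) (hg : ∀ n, g n ∈ Hc X Λ u a (y n)) (hR : Tendsto R atTop atTop) (he : Tendsto e atTop (𝓝 0))
    (hc : ∀ n, ‖c n‖ ≤ R n + e n) (h1 : ∀ n, ∀ z ∈ ball (c n) (R n), y n + z • a ∈ Gd D δ → dist (f n z) (g n z) ≤ ε₁)
    (h2 : ∀ n, y n ∈ Gd D δ) (h3 : ∀ n, ε₁ < dist (f n 0) (g n 0)) : False := by
  obtain ⟨𝒰, h𝒰⟩ : ∃ 𝒰 : Ultrafilter ℕ, (𝒰 : Filter ℕ) ≤ atTop := ⟨hyperfilter ℕ, Nat.hyperfilter_le_atTop⟩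
  have hδ := S.lc.δ_pos
  have hR' : Tendsto R (𝒰 : Filter ℕ) atTop := hR.mono_left h𝒰
  have he' : Tendsto e (𝒰 : Filter ℕ) (𝓝 0) := he.mono_left h𝒰
  obtain ⟨y₀, -, hy₀⟩ := (isCompact_closedBall (0 : Vd (k + 1)) Q).ultrafilter_le_nhds (𝒰.map y) (by
    rw [Ultrafilter.coe_map, le_principal_iff, mem_map]
    refine univ_mem' fun n => ?_
    simpa using hy n)
  have hyt : Tendsto y (𝒰 : Filter ℕ) (𝓝 y₀) := hy₀
  have hyn : ∀ᶠ n in (𝒰 : Filter ℕ), ‖y n - y₀‖ ≤ δ := by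
    filter_upwards [hyt.eventually (ball_mem_nhds y₀ hδ)] with n hn
    rw [← dist_eq_norm]
    exact (mem_ball.1 hn).le
  obtain ⟨ν, hν, hball⟩ := loc_disc hR' he' hc
  obtain ⟨f₀, hf₀, hff⟩ := hc_closed S.geo S.lg S.nl hyt (Eventually.of_forall hf)
  obtain ⟨g₀, hg₀, hgg⟩ := hc_closed S.geo S.lg S.nl hyt (Eventually.of_forall hg)
  have hy₀D : y₀ + (0 : ℂ) • a ∉ D := by
    rw [zero_smul, add_zero]
    exact gd_notMem hδ ((gd_closed D δ).mem_of_tendsto hyt (Eventually.of_forall h2))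
  have hdist : ∀ z : ℂ, y₀ + z • a ∉ D → Tendsto (fun n => dist (f n z) (g n z)) (𝒰 : Filter ℕ) (𝓝 (dist (f₀ z) (g₀ z))) := fun z hz =>
    (hff z hz (fun _ => z) tendsto_const_nhds).dist (hgg z hz (fun _ => z) tendsto_const_nhds)
  have hne : ε₁ ≤ dist (f₀ 0) (g₀ 0) := ge_of_tendsto (hdist 0 hy₀D) (Eventually.of_forall fun n => (h3 n).le)
  have heq : f₀ = g₀ := by
    refine hrig y₀ f₀ hf₀ g₀ hg₀ ν 0 hν fun z hz hzC => ?_
    have hzD : y₀ + z • a ∉ D := gd_notMem (by linarith) hzC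
    refine le_of_tendsto (hdist z hzD) ?_
    filter_upwards [hball z hz, hyn] with n a1 a2
    refine h1 n z a1 ?_
    have h5 : ‖y n + z • a - (y₀ + z • a)‖ ≤ δ := by rwa [add_sub_add_right_eq_sub]
    have h6 := gd_near hzC h5
    have h7 : 2 * δ - δ = δ := by ring
    rwa [h7] at h6
  rw [heq, dist_self] at hne
  linarith

end Pool.Agent.G4.A
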